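import Pool.Agent.R982.KS.FinalCW
import Pool.Agent.R982.KS.CWbig
import Pool.Agent.R982.KS.Iter
import Pool.Agent.R982.KS.Batch
import Pool.Agent.R982.KS.Param
import Pool.Agent.R982.KS.BCount
import Pool.Agent.R982.KS.Heavy
import Pool.Agent.R982.KS.HeavyFin
import Pool.Agent.R982.KS.Cover
import Pool.Agent.R982.KS.Esymm
import Pool.Agent.R982.KS.LightGame
import Pool.Agent.R982.KS.R1
import Pool.Agent.R982.KS.Sample
import Pool.Agent.R982.KS.Count

/-!
# Client-Waiter k-SAT game: the lower half of the conjectured limit (MP_fefad7_co)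

`ratioCW n k` is the quantity `(1/n) (n choose k) (b^CW)⁻¹ / ln 2` of Q1. For every `ε > 0`, for all
`k ≥ k0(ε)` and all `n ≥ n0(k, ε)` it is at least `1 - ε`.
-/

open Pool.Agent.R982.KS

theorem Pool.Agent.Results.MP_fefad7_co.ClientWaiterLower.result :
    ∀ ε : ℝ, 0 < ε → ∃ k0 : ℕ, ∀ k ≥ k0, ∃ n0 : ℕ, ∀ n ≥ n0, 1 - ε ≤ ratioCW n k :=
  FinalCW.finalcw_of
    (CWbig.cwbig_of
      (Batch.batch_of (LightGame.light_of (R1.r1_of Sample.sample_ok))
        (Heavy.heavy_of (HeavyFin.heavyfin_of (Cover.cover_of Esymm.esymm_ok)))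
        BCount.bcount_ok Param.param_ok)
      (Iter.iter_ok Count.count_ok))
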